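import Mathlib

/-!
Tower acyclicity (project MP_984acc_SQ, row ACY), without spectral sequences.

`a : K →* AddMonoid.End M` is an action, `CC a N` is the subgroup generated by the `n m - m`, `n ∈ N`.
If `N'` is generated by `N` and lifts `x` of a free basis of `N' / N`, and `H_1(N' / N, -) = 0` for the coinvariants
(in the elementary form `H1V`), then exactness modulo `CC a N` implies exactness modulo `CC a N'`.
-/

set_option autoImplicit false

namespace SQ.Tw

open Finset

variable {K : Type} [Group K]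

/-- the subgroup generated by the `n m - m` -/
def CC {M : Type} [AddCommGroup M] (a : K →* AddMonoid.End M) (N : Subgroup K) : AddSubgroup M :=
  AddSubgroup.closure {t | ∃ n ∈ N, ∃ s : M, t = a n s - s}

/-- vanishing of `H_1` of the free group with lifts `x` of a basis, coefficients `M / CC a N` -/
def H1V {M : Type} [AddCommGroup M] (a : K →* AddMonoid.End M) (N : Subgroup K) {X : Type} (x : X → K) : Prop :=
  ∀ (S : Finset X) (p : X → M), ∑ s ∈ S, (a (x s) (p s) - p s) ∈ CC a N → ∀ s ∈ S, p s ∈ CC a N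

/-- direct summands of induced modules -/
def RelProj {M : Type} [AddCommGroup M] (a : K →* AddMonoid.End M) : Prop :=
  ∃ (Z : Type) (_ : AddCommGroup Z) (i : M →+ (K →₀ Z)) (r : (K →₀ Z) →+ M),
    (∀ g m, i (a g m) = (i m).mapDomain (g * ·)) ∧ (∀ g f, r (f.mapDomain (g * ·)) = a g (r f)) ∧ ∀ m, r (i m) = m

section basic

variable {M : Type} [AddCommGroup M] (a : K →* AddMonoid.End M)

theorem act_act (g h : K) (m : M) : a g (a h m) = a (g * h) m := by
  rw [map_mul]
  rfl

theorem act_one (m : M) : a 1 m = m := by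
  rw [map_one]
  rfl

theorem sub_mem_CC {N : Subgroup K} {n : K} (hn : n ∈ N) (m : M) : a n m - m ∈ CC a N :=
  AddSubgroup.subset_closure ⟨n, hn, m, rfl⟩

theorem CC_mono {N N' : Subgroup K} (h : N ≤ N') : CC a N ≤ CC a N' := by
  apply AddSubgroup.closure_mono
  rintro t ⟨n, hn, s, rfl⟩
  exact ⟨n, h hn, s, rfl⟩

theorem CC_bot : CC a (⊥ : Subgroup K) = ⊥ := by
  rw [eq_bot_iff, CC, AddSubgroup.closure_le]
  rintro t ⟨n, hn, s, rfl⟩
  rw [Subgroup.mem_bot] at hn
  simp [hn]

theorem act_mem_CC (N : Subgroup K) [hN : N.Normal] (g : K) {m : M} (hm : m ∈ CC a N) : a g m ∈ CC a N := by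
  induction hm using AddSubgroup.closure_induction with
  | mem t h =>
    obtain ⟨n, hn, s, rfl⟩ := h
    have h1 : a g (a n s - s) = a (g * n * g⁻¹) (a g s) - a g s := by
      rw [map_sub, act_act, act_act]
      congr 3
      group
    rw [h1]
    exact sub_mem_CC a (hN.conj_mem n hn g) _
  | zero => rw [map_zero]; exact zero_mem _
  | add a b _ _ ha hb => rw [map_add]; exact add_mem ha hb
  | neg a _ ha => rw [map_neg]; exact neg_mem ha

/-- an equivariant map preserves `CC` -/
theorem map_mem_CC {M' : Type} [AddCommGroup M'] (a' : K →* AddMonoid.End M') (f : M →+ M')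
    (hf : ∀ g m, f (a g m) = a' g (f m)) {N : Subgroup K} {m : M} (hm : m ∈ CC a N) : f m ∈ CC a' N := by
  induction hm using AddSubgroup.closure_induction with
  | mem t h =>
    obtain ⟨n, hn, s, rfl⟩ := h
    rw [map_sub, hf]
    exact sub_mem_CC a' hn _
  | zero => rw [map_zero]; exact zero_mem _
  | add a b _ _ ha hb => rw [map_add]; exact add_mem ha hb
  | neg a _ ha => rw [map_neg]; exact neg_mem ha

/-- `m ↦ g m - m` -/
def sb (g : K) : M →+ M where
  toFun m := a g m - m
  map_zero' := by simp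
  map_add' m m' := by
    rw [map_add]
    abel

theorem sb_apply (g : K) (m : M) : sb a g m = a g m - m := rfl

/-- the map `(m_s) ↦ ∑ (x_s - 1) m_s` -/
noncomputable def Ph {X : Type} (x : X → K) : (X →₀ M) →+ M :=
  Finsupp.liftAddHom fun s => sb a (x s)

theorem Ph_apply {X : Type} (x : X → K) (p : X →₀ M) : Ph a x p = ∑ s ∈ p.support, (a (x s) (p s) - p s) := by
  rw [Ph, Finsupp.liftAddHom_apply, Finsupp.sum]
  rfl

theorem Ph_single {X : Type} (x : X → K) (s : X) (m : M) : Ph a x (Finsupp.single s m) = a (x s) m - m := by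
  rw [Ph, Finsupp.liftAddHom_apply_single]
  rfl

theorem Ph_map {M' : Type} [AddCommGroup M'] (a' : K →* AddMonoid.End M') (f : M →+ M')
    (hf : ∀ g m, f (a g m) = a' g (f m)) {X : Type} (x : X → K) (p : X →₀ M) :
    Ph a' x (Finsupp.mapRange.addMonoidHom f p) = f (Ph a x p) := by
  induction p using Finsupp.induction_linear with
  | zero => simp
  | add p q hp hq => rw [map_add, map_add, map_add, map_add, hp, hq]
  | single s m =>
    rw [Finsupp.mapRange.addMonoidHom_apply, Finsupp.mapRange_single, Ph_single, Ph_single, map_sub, hf]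

theorem Ph_mem {X : Type} (x : X → K) {N : Subgroup K} (hx : ∀ s, x s ∈ N) (p : X →₀ M) : Ph a x p ∈ CC a N := by
  rw [Ph_apply]
  exact sum_mem fun s _ => sub_mem_CC a (hx s) _

theorem H1V.fin {X : Type} {x : X → K} {N : Subgroup K} (h : H1V a N x) (p : X →₀ M) (hp : Ph a x p ∈ CC a N)
    (s : X) : p s ∈ CC a N := by
  by_cases hs : s ∈ p.support
  · rw [Ph_apply] at hp
    exact h _ _ hp s hs
  · rw [Finsupp.notMem_support_iff.1 hs]
    exact zero_mem _

/-- the coinvariants of `N'` are the coinvariants of the free group on the coinvariants of `N` -/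
theorem mem_CC_sup {X : Type} (x : X → K) (N : Subgroup K) {t : M}
    (ht : t ∈ CC a (N ⊔ Subgroup.closure (Set.range x))) :
    ∃ p : X →₀ M, t - Ph a x p ∈ CC a N := by
  set R : AddSubgroup M := (Ph a x).range ⊔ CC a N with hR
  have key : ∀ g ∈ N ⊔ Subgroup.closure (Set.range x), ∀ m : M, a g m - m ∈ R := by
    intro g hg
    have hg' : g ∈ Subgroup.closure ((N : Set K) ∪ Set.range x) := by
      rw [Subgroup.closure_union, Subgroup.closure_eq]
      exact hg
    induction hg' using Subgroup.closure_induction with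
    | mem g h =>
      intro m
      rcases h with h | ⟨s, rfl⟩
      · exact AddSubgroup.mem_sup_right (sub_mem_CC a h m)
      · exact AddSubgroup.mem_sup_left ⟨Finsupp.single s m, Ph_single a x s m⟩
    | one =>
      intro m
      simp
    | mul g h hg1 hh1 hg2 hh2 =>
      have e1 : g ∈ N ⊔ Subgroup.closure (Set.range x) := by
        rw [Subgroup.closure_union, Subgroup.closure_eq] at hg1
        exact hg1
      have e2 : h ∈ N ⊔ Subgroup.closure (Set.range x) := by
        rw [Subgroup.closure_union, Subgroup.closure_eq] at hh1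
        exact hh1
      intro m
      have : a (g * h) m - m = (a g (a h m) - a h m) + (a h m - m) := by
        rw [← act_act]
        abel
      rw [this]
      exact add_mem (hg2 e1 _) (hh2 e2 _)
    | inv g hg1 hg2 =>
      have e1 : g ∈ N ⊔ Subgroup.closure (Set.range x) := by
        rw [Subgroup.closure_union, Subgroup.closure_eq] at hg1
        exact hg1
      intro m
      have h2 : a g (a g⁻¹ m) = m := by
        rw [act_act, mul_inv_cancel, act_one]
      have : a g⁻¹ m - m = -(a g (a g⁻¹ m) - a g⁻¹ m) := by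
        rw [h2]
        abel
      rw [this]
      exact neg_mem (hg2 e1 _)
  have h3 : t ∈ R := by
    have : CC a (N ⊔ Subgroup.closure (Set.range x)) ≤ R := by
      rw [CC, AddSubgroup.closure_le]
      rintro t ⟨n, hn, s, rfl⟩
      exact key n hn s
    exact this ht
  rw [hR, AddSubgroup.mem_sup] at h3
  obtain ⟨y, ⟨p, rfl⟩, c, hc, rfl⟩ := h3
  exact ⟨p, by simpa using hc⟩

end basic

/-- the diagram chase: one step of the tower -/
theorem chase {A3 A2 A1 A0 : Type} [AddCommGroup A3] [AddCommGroup A2] [AddCommGroup A1] [AddCommGroup A0]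
    (a2 : K →* AddMonoid.End A2) (a1 : K →* AddMonoid.End A1) (a0 : K →* AddMonoid.End A0)
    (d2 : A3 →+ A2) (d1 : A2 →+ A1) (d0 : A1 →+ A0)
    (e1 : ∀ g m, d1 (a2 g m) = a1 g (d1 m)) (e0 : ∀ g m, d0 (a1 g m) = a0 g (d0 m))
    (h01 : ∀ m, d0 (d1 m) = 0) (N : Subgroup K) [N.Normal] {X : Type} (x : X → K)
    (hH1 : H1V a0 N x)
    (E1 : ∀ m, d0 m ∈ CC a0 N → ∃ f, m - d1 f ∈ CC a1 N)
    (E2 : ∀ m, d1 m ∈ CC a1 N → ∃ f, m - d2 f ∈ CC a2 N) (m : A2)
    (hm : d1 m ∈ CC a1 (N ⊔ Subgroup.closure (Set.range x))) :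
    ∃ f, m - d2 f ∈ CC a2 (N ⊔ Subgroup.closure (Set.range x)) := by
  classical
  obtain ⟨p, hp⟩ := mem_CC_sup a1 x N hm
  -- the components of `p` become zero
  have h2 : Ph a0 x (Finsupp.mapRange.addMonoidHom d0 p) ∈ CC a0 N := by
    have h3 := map_mem_CC a1 a0 d0 e0 hp
    rw [map_sub, h01, zero_sub] at h3
    rw [Ph_map a1 a0 d0 e0]
    exact neg_mem_iff.1 h3
  have h4 : ∀ s, d0 (p s) ∈ CC a0 N := by
    intro s
    have := hH1.fin a0 _ h2 s
    rwa [Finsupp.mapRange.addMonoidHom_apply, Finsupp.mapRange_apply] at this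
  choose e he using fun s => E1 (p s) (h4 s)
  -- correct `m`
  let q : X →₀ A2 := Finsupp.onFinset p.support (fun s => if s ∈ p.support then e s else 0) (by
    intro s hs
    by_contra h
    simp [h] at hs)
  have hq : ∀ s ∈ p.support, q s = e s := by
    intro s hs
    simp only [q, Finsupp.onFinset_apply]
    rw [if_pos hs]
  have hq0 : q.support ⊆ p.support := Finsupp.support_onFinset_subset
  have h5 : d1 (Ph a2 x q) - Ph a1 x p ∈ CC a1 N := by
    have h6 : Ph a2 x q = ∑ s ∈ p.support, (a2 (x s) (e s) - e s) := by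
      rw [Ph_apply]
      rw [sum_subset hq0]
      · refine sum_congr rfl fun s hs => ?_
        rw [hq s hs]
      · intro s _ hs
        rw [Finsupp.notMem_support_iff.1 hs]
        simp
    rw [h6, Ph_apply, map_sum, ← sum_sub_distrib]
    refine sum_mem fun s _ => ?_
    have h7 : d1 (a2 (x s) (e s) - e s) - (a1 (x s) (p s) - p s) =
        (p s - d1 (e s)) - a1 (x s) (p s - d1 (e s)) := by
      rw [map_sub, e1, map_sub]
      abel
    rw [h7]
    exact sub_mem (he s) (act_mem_CC a1 N _ (he s))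
  have h8 : d1 (m - Ph a2 x q) ∈ CC a1 N := by
    have : d1 (m - Ph a2 x q) = (d1 m - Ph a1 x p) - (d1 (Ph a2 x q) - Ph a1 x p) := by
      rw [map_sub]
      abel
    rw [this]
    exact sub_mem hp h5
  obtain ⟨f, hf⟩ := E2 _ h8
  refine ⟨f, ?_⟩
  have h9 : m - d2 f = (m - Ph a2 x q - d2 f) + Ph a2 x q := by abel
  rw [h9]
  refine add_mem (CC_mono a2 le_sup_left hf) (Ph_mem a2 x (fun s => ?_) q)
  exact (le_sup_right : _ ≤ N ⊔ Subgroup.closure (Set.range x)) (Subgroup.subset_closure ⟨s, rfl⟩)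

/-! ### `H_1` of a free group with induced coefficients -/

/-- integer potentials on a free `F`-set, `F` a free group -/
theorem exists_potential {X Ω : Type} (φ : FreeGroup X →* Equiv.Perm Ω) (hφ : ∀ w ω, φ w ω = ω → w = 1)
    (e : X → Ω → ℤ) : ∃ c : Ω → ℤ, ∀ t ω, c (φ (FreeGroup.of t) ω) = c ω + e t ω := by
  classical
  -- the extended action on `Ω × ℤ`
  let P : X → Equiv.Perm (Ω × ℤ) := fun t =>
    { toFun := fun z => (φ (FreeGroup.of t) z.1, z.2 + e t z.1)
      invFun := fun z => ((φ (FreeGroup.of t))⁻¹ z.1, z.2 - e t ((φ (FreeGroup.of t))⁻¹ z.1))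
      left_inv := fun z => by simp
      right_inv := fun z => by simp }
  let ψ : FreeGroup X →* Equiv.Perm (Ω × ℤ) := FreeGroup.lift P
  have h1 : ∀ (w : FreeGroup X) (z : Ω × ℤ), (ψ w z).1 = φ w z.1 := by
    intro w
    induction w using FreeGroup.induction_on with
    | C1 => intro z; simp
    | of t =>
      intro z
      simp [ψ, P]
    | inv_of t _ =>
      intro z
      have : ψ (FreeGroup.of t)⁻¹ = (P t)⁻¹ := by simp [ψ]
      rw [map_inv]
      simp only [ψ, FreeGroup.lift_apply_of, map_inv]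
      rfl
    | mul u v hu hv =>
      intro z
      rw [map_mul, map_mul, Equiv.Perm.mul_apply, Equiv.Perm.mul_apply, hu, hv]
  let s : Setoid Ω := ⟨fun a b => ∃ w, φ w a = b, ⟨fun a => ⟨1, by simp⟩,
    fun {a b} ⟨w, hw⟩ => ⟨w⁻¹, by rw [← hw, map_inv]; simp⟩,
    fun {a b c} ⟨w, hw⟩ ⟨v, hv⟩ => ⟨v * w, by rw [map_mul, Equiv.Perm.mul_apply, hw, hv]⟩⟩⟩
  let b : Ω → Ω := fun ω => (Quotient.mk s ω).out
  have hb : ∀ ω, ∃ w, φ w (b ω) = ω := fun ω => Quotient.mk_out (s := s) ω
  choose w hw using hb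
  have hbt : ∀ t ω, b (φ (FreeGroup.of t) ω) = b ω := by
    intro t ω
    have : Quotient.mk s (φ (FreeGroup.of t) ω) = Quotient.mk s ω := Quotient.sound (s := s) ⟨(FreeGroup.of t)⁻¹, by
      rw [map_inv]; simp⟩
    simp only [b, this]
  have hwt : ∀ t ω, w (φ (FreeGroup.of t) ω) = FreeGroup.of t * w ω := by
    intro t ω
    have h2 := hw (φ (FreeGroup.of t) ω)
    rw [hbt] at h2
    have h3 : φ (FreeGroup.of t * w ω) (b ω) = φ (FreeGroup.of t) ω := by
      rw [map_mul, Equiv.Perm.mul_apply, hw]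
    have h4 : φ ((FreeGroup.of t * w ω)⁻¹ * w (φ (FreeGroup.of t) ω)) (b ω) = b ω := by
      rw [map_mul, Equiv.Perm.mul_apply, h2, ← h3, map_inv]
      exact Equiv.symm_apply_apply _ _
    have h5 := hφ _ _ h4
    exact (inv_mul_eq_one.1 h5).symm
  refine ⟨fun ω => (ψ (w ω) (b ω, 0)).2, fun t ω => ?_⟩
  simp only
  rw [hbt, hwt, map_mul, Equiv.Perm.mul_apply]
  have h6 : ψ (w ω) (b ω, 0) = (ω, (ψ (w ω) (b ω, 0)).2) := by
    apply Prod.ext
    · rw [h1]
      exact hw ω
    · rfl
  have h7 : ∀ z, ψ (FreeGroup.of t) z = (φ (FreeGroup.of t) z.1, z.2 + e t z.1) := by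
    intro z
    simp [ψ, P]
  rw [h7]
  rw [h1, hw]


/-- the kernel of `ℤ[K] ⊗ Z → ℤ[K / N] ⊗ Z` -/
theorem mem_CC_of_mapDomain {M : Type} [AddCommGroup M] (a : K →* AddMonoid.End M) {Z : Type} [AddCommGroup Z]
    (r : (K →₀ Z) →+ M) (hr : ∀ g f, r (f.mapDomain (g * ·)) = a g (r f)) (N : Subgroup K) [hN : N.Normal]
    (f : K →₀ Z) (hf : f.mapDomain (QuotientGroup.mk : K → K ⧸ N) = 0) : r f ∈ CC a N := by
  classical
  have key : ∀ f : K →₀ Z,
      r f - r ((f.mapDomain (QuotientGroup.mk : K → K ⧸ N)).mapDomain Quotient.out) ∈ CC a N := by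
    intro f
    induction f using Finsupp.induction_linear with
    | zero => simp
    | add f g hf hg =>
      rw [Finsupp.mapDomain_add, Finsupp.mapDomain_add, map_add, map_add]
      have := add_mem hf hg
      convert this using 1
      abel
    | single g z =>
      rw [Finsupp.mapDomain_single, Finsupp.mapDomain_single]
      set q : K := (QuotientGroup.mk g : K ⧸ N).out with hq
      have h1 : q⁻¹ * g ∈ N := by
        rw [← QuotientGroup.eq]
        exact QuotientGroup.out_eq' _
      have h2 : g * q⁻¹ ∈ N := by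
        have := hN.conj_mem _ h1 q
        simpa [mul_assoc] using this
      have h3 : r (Finsupp.single g z) = a (g * q⁻¹) (r (Finsupp.single q z)) := by
        rw [← hr, Finsupp.mapDomain_single]
        simp
      rw [h3]
      exact sub_mem_CC a h2 _
  have := key f
  rw [hf, Finsupp.mapDomain_zero, map_zero, sub_zero] at this
  exact this

theorem mapDomain_of_mem_CC {M : Type} [AddCommGroup M] (a : K →* AddMonoid.End M) {Z : Type} [AddCommGroup Z]
    (i : M →+ (K →₀ Z)) (hi : ∀ g m, i (a g m) = (i m).mapDomain (g * ·)) (N : Subgroup K) [hN : N.Normal]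
    {m : M} (hm : m ∈ CC a N) : (i m).mapDomain (QuotientGroup.mk : K → K ⧸ N) = 0 := by
  induction hm using AddSubgroup.closure_induction with
  | mem t h =>
    obtain ⟨n, hn, s, rfl⟩ := h
    rw [map_sub, hi, Finsupp.mapDomain_sub, ← Finsupp.mapDomain_comp, sub_eq_zero]
    congr 1
    funext g
    rw [Function.comp_apply, QuotientGroup.eq]
    have := hN.conj_mem _ (N.inv_mem hn) g⁻¹
    simpa [mul_assoc] using this
  | zero => rw [map_zero, Finsupp.mapDomain_zero]
  | add a b _ _ ha hb => rw [map_add, Finsupp.mapDomain_add, ha, hb, add_zero]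
  | neg a _ ha =>
    rw [map_neg]
    have h1 : (-(i a)).mapDomain (QuotientGroup.mk : K → K ⧸ N) =
        -((i a).mapDomain (QuotientGroup.mk : K → K ⧸ N)) :=
      map_neg (Finsupp.mapDomain.addMonoidHom (QuotientGroup.mk : K → K ⧸ N)) (i a)
    rw [h1, ha, neg_zero]

/-- `H_1` of a free group with coefficients in a relatively projective module vanishes -/
theorem RelProj.h1v {M : Type} [AddCommGroup M] {a : K →* AddMonoid.End M} (ha : RelProj a) (N : Subgroup K)
    [hN : N.Normal] {X : Type} (x : X → K)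
    (hx : Function.Injective (FreeGroup.lift fun s => (QuotientGroup.mk (x s) : K ⧸ N))) : H1V a N x := by
  classical
  obtain ⟨Z, _, i, r, hi, hr, hri⟩ := ha
  intro S p hp s0 hs0
  let μ : X → (K ⧸ N →₀ Z) := fun s => (i (p s)).mapDomain (QuotientGroup.mk : K → K ⧸ N)
  have h1 : ∑ s ∈ S, ((μ s).mapDomain ((QuotientGroup.mk (x s) : K ⧸ N) * ·) - μ s) = 0 := by
    have := mapDomain_of_mem_CC a i hi N hp
    rw [map_sum] at this
    have h2 : (∑ s ∈ S, i (a (x s) (p s) - p s)).mapDomain (QuotientGroup.mk : K → K ⧸ N) =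
        ∑ s ∈ S, (i (a (x s) (p s) - p s)).mapDomain (QuotientGroup.mk : K → K ⧸ N) :=
      map_sum (Finsupp.mapDomain.addMonoidHom (QuotientGroup.mk : K → K ⧸ N)) _ S
    rw [h2] at this
    rw [← this]
    refine sum_congr rfl fun s _ => ?_
    rw [map_sub, hi, Finsupp.mapDomain_sub, ← Finsupp.mapDomain_comp]
    congr 1
    rw [← Finsupp.mapDomain_comp]
    rfl
  -- the potential
  let φ : FreeGroup X →* Equiv.Perm (K ⧸ N) :=
    (MulAction.toPermHom (K ⧸ N) (K ⧸ N)).comp (FreeGroup.lift fun s => (QuotientGroup.mk (x s) : K ⧸ N))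
  have hφ : ∀ w ω, φ w ω = ω → w = 1 := by
    intro w ω h
    have h2 : (FreeGroup.lift fun s => (QuotientGroup.mk (x s) : K ⧸ N)) w * ω = ω := h
    have h3 := mul_eq_right.1 h2
    apply hx
    rw [h3, map_one]
  have hzero : ∀ ω0, μ s0 ω0 = 0 := by
    intro ω0
    obtain ⟨c, hc⟩ := exists_potential φ hφ (fun t ω => if t = s0 ∧ ω = ω0 then 1 else 0)
    have hc' : ∀ t ω, c ((QuotientGroup.mk (x t) : K ⧸ N) * ω) = c ω + if t = s0 ∧ ω = ω0 then 1 else 0 := by
      intro t ω
      rw [← hc t ω]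
      simp [φ]
    let L : (K ⧸ N →₀ Z) →+ Z := Finsupp.liftAddHom fun ω => (zmultiplesHom (Z →+ Z) (AddMonoidHom.id Z)) (c ω)
    have hL : ∀ ω z, L (Finsupp.single ω z) = c ω • z := by
      intro ω z
      simp only [L]
      rw [Finsupp.liftAddHom_apply_single]
      simp
    have h4 : ∀ t (f : K ⧸ N →₀ Z), L (f.mapDomain ((QuotientGroup.mk (x t) : K ⧸ N) * ·) - f) =
        if t = s0 then f ω0 else 0 := by
      intro t f
      induction f using Finsupp.induction_linear with
      | zero => simp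
      | add f g hf hg =>
        rw [Finsupp.mapDomain_add]
        have h5 : f.mapDomain ((QuotientGroup.mk (x t) : K ⧸ N) * ·) +
            g.mapDomain ((QuotientGroup.mk (x t) : K ⧸ N) * ·) - (f + g) =
            (f.mapDomain ((QuotientGroup.mk (x t) : K ⧸ N) * ·) - f) +
            (g.mapDomain ((QuotientGroup.mk (x t) : K ⧸ N) * ·) - g) := by abel
        rw [h5, map_add, hf, hg]
        split_ifs <;> simp
      | single ω z =>
        rw [Finsupp.mapDomain_single, map_sub, hL, hL, hc', add_smul, add_sub_cancel_left]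
        by_cases h6 : t = s0
        · by_cases h7 : ω = ω0
          · simp [h6, h7]
          · simp [h6, h7]
        · simp [h6]
    have h8 := congrArg L h1
    rw [map_sum, map_zero, sum_congr rfl fun t _ => h4 t (μ t), sum_ite_eq' S s0] at h8
    simpa [hs0] using h8
  have h9 : μ s0 = 0 := by
    ext ω
    exact hzero ω
  have h10 := mem_CC_of_mapDomain a r hr N _ h9
  rwa [hri] at h10

/-! ### The tower theorem -/

/-- acyclicity of `Y`: for every augmented exact complex of relatively projective modules over `Y` the complex of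
coinvariants is exact -/
def Acy {Y : Type} [AddCommGroup Y] (a : K →* AddMonoid.End Y) : Prop :=
  ∀ (M : ℕ → Type) [∀ j, AddCommGroup (M j)] (b : ∀ j, K →* AddMonoid.End (M j)) (d : ∀ j, M (j + 1) →+ M j)
    (ε : M 0 →+ Y), (∀ j g m, d j (b (j + 1) g m) = b j g (d j m)) → (∀ g m, ε (b 0 g m) = a g (ε m)) →
    Function.Surjective ε → (∀ m, ε (d 0 m) = 0) → (∀ m, ε m = 0 → ∃ m', d 0 m' = m) →
    (∀ j m, d j (d (j + 1) m) = 0) → (∀ j m, d j m = 0 → ∃ m', d (j + 1) m' = m) → (∀ j, RelProj (b j)) →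
    (∀ e, ε e ∈ CC a ⊤ → ∃ f, e - d 0 f ∈ CC (b 0) ⊤) ∧
      ∀ j e, d j e ∈ CC (b j) ⊤ → ∃ f, e - d (j + 1) f ∈ CC (b (j + 1)) ⊤

/-- tower acyclicity -/
theorem acy_of_tower {Y : Type} [AddCommGroup Y] (a : K →* AddMonoid.End Y) (h : ℕ) (N : ℕ → Subgroup K)
    (hn : ∀ i, (N i).Normal) (h0 : N 0 = ⊥) (hh : N h = ⊤) (X : ℕ → Type) (x : ∀ i, X i → K)
    (hgen : ∀ i < h, N (i + 1) = N i ⊔ Subgroup.closure (Set.range (x i)))
    (hfree : ∀ i < h, Function.Injective (FreeGroup.lift fun s => (QuotientGroup.mk (x i s) : K ⧸ N i)))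
    (hH1 : ∀ i < h, H1V a (N i) (x i)) : Acy a := by
  intro M _ b d ε hb hε hsurj hεd hex0 hdd hex hrel
  have key : ∀ i ≤ h, (∀ e, ε e ∈ CC a (N i) → ∃ f, e - d 0 f ∈ CC (b 0) (N i)) ∧
      ∀ j e, d j e ∈ CC (b j) (N i) → ∃ f, e - d (j + 1) f ∈ CC (b (j + 1)) (N i) := by
    intro i hi
    induction i with
    | zero =>
      rw [h0]
      simp only [CC_bot, AddSubgroup.mem_bot, sub_eq_zero]
      refine ⟨fun e he => ?_, fun j e he => ?_⟩
      · obtain ⟨f, hf⟩ := hex0 e he
        exact ⟨f, hf.symm⟩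
      · obtain ⟨f, hf⟩ := hex j e he
        exact ⟨f, hf.symm⟩
    | succ i ih =>
      obtain ⟨ih0, ihj⟩ := ih (by omega)
      have hni := hn i
      rw [hgen i (by omega)]
      have hM : ∀ j, H1V (b j) (N i) (x i) := fun j => (hrel j).h1v (N i) (x i) (hfree i (by omega))
      refine ⟨?_, ?_⟩
      · -- augmentation
        refine chase (b 0) a (1 : K →* AddMonoid.End PUnit) (d 0) ε 0 hε (fun _ _ => rfl) (fun _ => rfl) (N i) (x i)
          ?_ ?_ ih0
        · intro S p _ s _
          exact zero_mem _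
        · intro y _
          obtain ⟨f, rfl⟩ := hsurj y
          exact ⟨f, by rw [sub_self]; exact zero_mem _⟩
      · intro j
        cases j with
        | zero =>
          exact chase (b 1) (b 0) a (d 1) (d 0) ε (hb 0) hε hεd (N i) (x i) (hH1 i (by omega)) ih0 (ihj 0)
        | succ j =>
          exact chase (b (j + 2)) (b (j + 1)) (b j) (d (j + 2)) (d (j + 1)) (d j) (hb (j + 1)) (hb j) (hdd j) (N i)
            (x i) (hM j) (ihj j) (ihj (j + 1))
  have := key h le_rfl
  rw [hh] at this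
  exact this

end SQ.Tw
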