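import Mathlib

/-!
Rank estimate over `D[a] / (a ^ l)` (project MP_984acc_SQ, row CMP).

`K` is a division ring, `P k : V → W` are linear maps, `P k = 0` for `k > d`.
The polynomial `P = ∑ a ^ k P k` acts on the truncated space `Fin l → V`, and its
kernel there has dimension at most `l * dim ker P(1) + d * dim W`.
-/

namespace Helper50.SQ

open Module Finset

variable {K : Type*} [DivisionRing K] {U V W : Type*} [AddCommGroup U] [Module K U]
  [AddCommGroup V] [Module K V] [AddCommGroup W] [Module K W]

/-- the polynomial `∑ a ^ k P k` acting on formal power series with coefficients in `V` -/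
def conv (P : ℕ → V →ₗ[K] W) : (ℕ → V) →ₗ[K] (ℕ → W) where
  toFun v n := ∑ p ∈ antidiagonal n, P p.1 (v p.2)
  map_add' v w := by
    funext n
    simp [sum_add_distrib]
  map_smul' c v := by
    funext n
    simp [smul_sum]

theorem conv_apply (P : ℕ → V →ₗ[K] W) (v : ℕ → V) (n : ℕ) :
    conv P v n = ∑ p ∈ antidiagonal n, P p.1 (v p.2) := rfl

/-- extension by zero -/
def ext (K : Type*) [DivisionRing K] {V : Type*} [AddCommGroup V] [Module K V] (l : ℕ) :
    (Fin l → V) →ₗ[K] (ℕ → V) where
  toFun v n := if h : n < l then v ⟨n, h⟩ else 0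
  map_add' v w := by
    funext n
    by_cases h : n < l <;> simp [h]
  map_smul' c v := by
    funext n
    by_cases h : n < l <;> simp [h]

theorem ext_lt (l : ℕ) (v : Fin l → V) {n : ℕ} (h : n < l) : ext K l v n = v ⟨n, h⟩ := by
  simp [ext, h]

theorem ext_ge (l : ℕ) (v : Fin l → V) {n : ℕ} (h : l ≤ n) : ext K l v n = 0 := by
  simp [ext, Nat.not_lt.2 h]

/-- restriction to the first `l` coefficients -/
def res (K : Type*) [DivisionRing K] {V : Type*} [AddCommGroup V] [Module K V] (l : ℕ) :
    (ℕ → V) →ₗ[K] (Fin l → V) where
  toFun v n := v n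
  map_add' _ _ := rfl
  map_smul' _ _ := rfl

/-- the polynomial `∑ a ^ k P k` acting on `V[a] / (a ^ l)` -/
def tr (l : ℕ) (P : ℕ → V →ₗ[K] W) : (Fin l → V) →ₗ[K] (Fin l → W) :=
  (res K l).comp ((conv P).comp (ext K l))

theorem tr_apply (l : ℕ) (P : ℕ → V →ₗ[K] W) (v : Fin l → V) (n : Fin l) :
    tr l P v n = ∑ p ∈ antidiagonal (n : ℕ), P p.1 (ext K l v p.2) := rfl

/-- partial sums -/
def ps (v : ℕ → V) (n : ℕ) : V := ∑ i ∈ range (n + 1), v i

theorem ps_succ (v : ℕ → V) (n : ℕ) : ps v (n + 1) = ps v n + v (n + 1) := by
  simp [ps, sum_range_succ]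

theorem conv_ps (P : ℕ → V →ₗ[K] W) (v : ℕ → V) (n : ℕ) :
    conv P (ps v) n = ps (conv P v) n := by
  induction n with
  | zero => simp [conv_apply, ps]
  | succ n ih =>
    rw [ps_succ, ← ih]
    simp only [conv_apply]
    rw [Nat.antidiagonal_succ']
    have h0 : ps v 0 = v 0 := by simp [ps]
    have h1 : ∀ x : ℕ × ℕ, P x.1 (ps v (x.2 + 1)) = P x.1 (ps v x.2) + P x.1 (v (x.2 + 1)) :=
      fun x => by rw [ps_succ, map_add]
    rw [sum_cons, sum_cons, sum_map, sum_map]
    change P (n + 1) (ps v 0) + ∑ x ∈ antidiagonal n, P x.1 (ps v (x.2 + 1)) =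
      ∑ x ∈ antidiagonal n, P x.1 (ps v x.2) +
        (P (n + 1) (v 0) + ∑ x ∈ antidiagonal n, P x.1 (v (x.2 + 1)))
    rw [sum_congr rfl fun x _ => h1 x, sum_add_distrib, h0]
    abel

theorem conv_eq_range (P : ℕ → V →ₗ[K] W) (v : ℕ → V) (d n : ℕ) (hP : ∀ k, d < k → P k = 0)
    (hn : d ≤ n) : conv P v n = ∑ k ∈ range (d + 1), P k (v (n - k)) := by
  rw [conv_apply, Nat.sum_antidiagonal_eq_sum_range_succ_mk]
  symm
  apply sum_subset
  · intro x hx
    simp only [mem_range] at hx ⊢
    omega
  · intro x _ hx
    simp only [mem_range, not_lt] at hx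
    rw [hP x (by omega)]
    simp

theorem inj (P : ℕ → V →ₗ[K] W) (d : ℕ) (hP : ∀ k, d < k → P k = 0) (V' : Submodule K V)
    (hV : ∀ x ∈ V', (∑ k ∈ range (d + 1), P k) x = 0 → x = 0) (n : ℕ) :
    ∀ v : ℕ → V, (∀ k, v k ∈ V') → (∀ k, n ≤ k → v k = 0) → conv P v = 0 → v = 0 := by
  induction n with
  | zero =>
    intro v _ h _
    funext k
    exact h k (Nat.zero_le k)
  | succ n ih =>
    intro v hv h hc
    have hconst : ∀ k, ps v (n + k) = ps v n := by
      intro k
      induction k with
      | zero => rfl
      | succ k ihk =>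
        rw [← add_assoc, ps_succ, ihk, h (n + k + 1) (by omega), add_zero]
    have hps : ∀ m, conv P (ps v) m = 0 := by
      intro m
      rw [conv_ps, hc]
      simp [ps]
    have hmem : ∀ m, ps v m ∈ V' := fun m => V'.sum_mem fun i _ => hv i
    have h1 : ps v n = 0 := by
      apply hV _ (hmem n)
      have := hps (n + d)
      rw [conv_eq_range P (ps v) d (n + d) hP (by omega)] at this
      rw [LinearMap.sum_apply, ← this]
      apply sum_congr rfl
      intro k hk
      have hk' : k ≤ d := by
        simp only [mem_range] at hk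
        omega
      rw [show n + d - k = n + (d - k) by omega, hconst]
    have h2 : ps v = 0 := by
      apply ih (ps v) hmem
      · intro k hk
        obtain ⟨j, rfl⟩ := Nat.exists_eq_add_of_le hk
        rw [hconst, h1]
      · funext m
        exact hps m
    funext k
    cases k with
    | zero =>
      have := congrFun h2 0
      simpa [ps] using this
    | succ k =>
      have a := congrFun h2 k
      have b := congrFun h2 (k + 1)
      rw [ps_succ, a] at b
      simpa using b

/-- the rank estimate -/
theorem finrank_ker_tr_le [FiniteDimensional K V] [FiniteDimensional K W] (l d : ℕ)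
    (P : ℕ → V →ₗ[K] W) (hP : ∀ k, d < k → P k = 0) :
    finrank K (LinearMap.ker (tr l P)) ≤
      l * finrank K (LinearMap.ker (∑ k ∈ range (d + 1), P k)) + d * finrank K W := by
  classical
  set P1 := ∑ k ∈ range (d + 1), P k with hP1
  obtain ⟨V', hV'⟩ := Submodule.exists_isCompl (LinearMap.ker P1)
  let π : V →ₗ[K] LinearMap.ker P1 := Submodule.projectionOnto _ _ hV'
  let Φ : LinearMap.ker (tr l P) →ₗ[K] (Fin l → LinearMap.ker P1) × (Fin d → W) :=
    LinearMap.prod
      ({ toFun := fun v n => π (v.1 n)
         map_add' := fun v w => by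
           funext n
           simp
         map_smul' := fun c v => by
           funext n
           simp } : LinearMap.ker (tr l P) →ₗ[K] (Fin l → LinearMap.ker P1))
      ({ toFun := fun v j => conv P (ext K l v.1) (l + j)
         map_add' := fun v w => by
           funext n
           simp
         map_smul' := fun c v => by
           funext n
           simp } : LinearMap.ker (tr l P) →ₗ[K] (Fin d → W))
  have hinj : Function.Injective Φ := by
    rw [← LinearMap.ker_eq_bot, LinearMap.ker_eq_bot']
    intro v hv
    have hv1 : ∀ n : Fin l, π (v.1 n) = 0 := by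
      intro n
      have := congrArg Prod.fst hv
      exact congrFun this n
    have hv2 : ∀ j : Fin d, conv P (ext K l v.1) (l + j) = 0 := by
      intro n
      have := congrArg Prod.snd hv
      exact congrFun this n
    have hz : ext K l v.1 = 0 := by
      apply inj P d hP V' _ l
      · intro k
        by_cases hk : k < l
        · rw [ext_lt l v.1 hk]
          have := hv1 ⟨k, hk⟩
          exact (Submodule.projectionOnto_apply_eq_zero_iff hV').1 this
        · rw [ext_ge l v.1 (by omega)]
          exact V'.zero_mem
      · intro k hk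
        exact ext_ge l v.1 hk
      · funext n
        by_cases h1 : n < l
        · have := v.2
          rw [LinearMap.mem_ker] at this
          exact congrFun this ⟨n, h1⟩
        · by_cases h2 : n < l + d
          · have := hv2 ⟨n - l, by omega⟩
            simp only at this
            rw [show l + (n - l) = n by omega] at this
            exact this
          · rw [conv_eq_range P _ d n hP (by omega)]
            apply sum_eq_zero
            intro k hk
            simp only [mem_range] at hk
            rw [ext_ge l v.1 (by omega), map_zero]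
      · intro x hx h0
        have : x ∈ LinearMap.ker P1 ⊓ V' := ⟨h0, hx⟩
        rw [hV'.inf_eq_bot] at this
        exact (Submodule.mem_bot K).1 this
    apply Subtype.ext
    funext n
    have := congrFun hz n
    rw [ext_lt l v.1 n.2] at this
    simpa using this
  have := LinearMap.finrank_le_finrank_of_injective hinj
  rw [Module.finrank_prod, Module.finrank_pi_fintype, Module.finrank_pi_fintype] at this
  simpa using this

end Helper50.SQ
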