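import Pool.Agent.Singer.Ord.Luck
import Pool.Agent.Singer.Ord.ModTwo

/-!
# Approximation by amenable quotients, the injective case (project MP_984acc_SQ, stage 2)

`vdim_eq_zero`: let `W ⊆ ℓ²(Γ)^ι` be the solutions of a linear system over `ℤ[Γ]`.  Suppose that every finite set of
nontrivial elements of `Γ` stays nontrivial in a quotient `Q` which has Foelner sets (in the weak form `Halving`), and
such that the system modulo two has no nonzero finitely supported solution on `Q`.  Then `W` has von Neumann dimension zero.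
-/

set_option autoImplicit false
set_option linter.unusedSectionVars false

open scoped ComplexConjugate InnerProductSpace ComplexOrder
open Filter Topology Matrix

namespace SQ.Fo

open Singer Singer.Ord

/-- for every finite set `S` there is a nonempty finite set `Φ`, at least half of which consists of points `q` with
`q S ⊆ Φ` -/
def Halving (Q : Type) [Group Q] : Prop :=
  ∀ S : Finset Q, ∃ Φ I : Finset Q, I.Nonempty ∧ I ⊆ Φ ∧ (∀ q ∈ I, ∀ s ∈ S, q * s ∈ Φ) ∧ Φ.card ≤ 2 * I.card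

section formulas
variable {Q : Type} [Group Q] {κ ι J : Type} [Fintype κ] [Fintype ι] [Fintype J]
  (c : κ → ι → J → ℤ) (s : J → Q)

theorem bF_apply (φ : Q × ι →₀ ℂ) (g : Q) (k : κ) :
    bF c s φ (g, k) = ∑ i, ∑ j, (c k i j : ℂ) * φ (g * s j, i) := by
  classical
  induction φ using Finsupp.induction_linear with
  | zero => simp
  | add φ ψ hφ hψ =>
    rw [map_add, Finsupp.add_apply, hφ, hψ, ← Finset.sum_add_distrib]
    refine Finset.sum_congr rfl fun i _ => ?_
    rw [← Finset.sum_add_distrib]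
    refine Finset.sum_congr rfl fun j _ => ?_
    rw [Finsupp.add_apply, mul_add]
  | single x z =>
    have h1 : (Finsupp.single x z : Q × ι →₀ ℂ) = z • Finsupp.single x 1 := by
      rw [Finsupp.smul_single, smul_eq_mul, mul_one]
    rw [h1, map_smul, bF_single, Finsupp.smul_apply, Finsupp.finsetSum_apply, smul_eq_mul, Finset.mul_sum]
    rw [Finset.sum_eq_single k]
    · rw [Finsupp.finsetSum_apply, Finset.mul_sum, Finset.sum_eq_single x.2]
      · refine Finset.sum_congr rfl fun j _ => ?_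
        rw [Finsupp.smul_apply, Finsupp.smul_apply, smul_eq_mul, smul_eq_mul, Finsupp.single_apply,
          Finsupp.single_apply]
        have : ((x.1 * (s j)⁻¹, k) = (g, k)) ↔ (x = (g * s j, x.2)) := by
          rw [Prod.ext_iff, Prod.ext_iff]
          simp [mul_inv_eq_iff_eq_mul]
        by_cases h : x = (g * s j, x.2)
        · rw [if_pos (this.2 h), if_pos h]
          ring
        · rw [if_neg (fun h' => h (this.1 h')), if_neg h]
          ring
      · intro i _ hi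
        refine Finset.sum_eq_zero fun j _ => ?_
        rw [Finsupp.smul_apply, Finsupp.single_apply, if_neg (fun h => hi (by rw [h]))]
        simp
      · intro h
        exact absurd (Finset.mem_univ _) h
    · intro k' _ hk
      rw [Finsupp.finsetSum_apply, Finset.mul_sum]
      refine Finset.sum_eq_zero fun j _ => ?_
      rw [Finsupp.smul_apply, Finsupp.single_apply, if_neg (fun h => hk (by rw [Prod.ext_iff] at h; exact h.2))]
      simp
    · intro h
      exact absurd (Finset.mem_univ _) h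

theorem btF_apply (φ : Q × κ →₀ ℂ) (g : Q) (i : ι) :
    btF c s φ (g, i) = ∑ k, ∑ j, (c k i j : ℂ) * φ (g * (s j)⁻¹, k) := by
  have h1 : btF c s φ = bF (fun i k j => c k i j) (fun j => (s j)⁻¹) φ := by
    unfold btF bF
    simp only [inv_inv]
  rw [h1, bF_apply]

end formulas

section trunc
variable {Q : Type} [Group Q] [DecidableEq Q] {κ ι J : Type} [Fintype κ] [Fintype ι] [DecidableEq ι]
  [DecidableEq κ] [Fintype J] (c : κ → ι → J → ℤ) (s : J → Q) (Φ : Finset Q)

/-- extension by zero -/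
noncomputable def eT (κ : Type) [Fintype κ] (Φ : Finset Q) (v : {x // x ∈ Φ} × κ → ℂ) : Q × κ →₀ ℂ :=
  Finsupp.mapDomain (Prod.map Subtype.val id) ((Finsupp.equivFunOnFinite).symm v)

theorem inj_val (κ : Type) (Φ : Finset Q) : Function.Injective (Prod.map (Subtype.val : {x // x ∈ Φ} → Q) (id : κ → κ)) :=
  Function.Injective.prodMap Subtype.val_injective Function.injective_id

theorem eT_mem (v : {x // x ∈ Φ} × κ → ℂ) (x : Q) (hx : x ∈ Φ) (k : κ) : eT κ Φ v (x, k) = v (⟨x, hx⟩, k) := by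
  have h := Finsupp.mapDomain_apply (inj_val κ Φ) ((Finsupp.equivFunOnFinite).symm v) (⟨x, hx⟩, k)
  exact h

theorem eT_notMem (v : {x // x ∈ Φ} × κ → ℂ) (x : Q) (hx : x ∉ Φ) (k : κ) : eT κ Φ v (x, k) = 0 := by
  refine Finsupp.mapDomain_of_notMem_range _ _ ?_
  rintro ⟨y, hy⟩
  have h5 : y.1.1 = x := congrArg Prod.fst hy
  exact hx (by rw [← h5]; exact y.1.2)

theorem eq_eT (φ : Q × κ →₀ ℂ) (v : {x // x ∈ Φ} × κ → ℂ) (h1 : ∀ x (hx : x ∈ Φ) k, φ (x, k) = v (⟨x, hx⟩, k))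
    (h2 : ∀ x, x ∉ Φ → ∀ k, φ (x, k) = 0) : φ = eT κ Φ v := by
  ext ⟨x, k⟩
  by_cases hx : x ∈ Φ
  · rw [h1 x hx, eT_mem _ _ _ hx]
  · rw [h2 x hx, eT_notMem _ _ _ hx]

theorem sqs_eT (v : {x // x ∈ Φ} × κ → ℂ) : sqs (eT κ Φ v) = ∑ x, ‖v x‖ ^ 2 := by
  rw [eT, sqs_mapDomain _ _ (inj_val κ Φ).injOn, sqs_fintype]
  rfl

/-- the points which occur in the image of the functions supported in `Φ` -/
def ran (s : J → Q) (Φ : Finset Q) : Finset Q := Φ.biUnion fun q => Finset.univ.image fun j => q * (s j)⁻¹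

theorem mem_ran {x : Q} (hx : x ∈ Φ) (j : J) : x * (s j)⁻¹ ∈ ran s Φ :=
  Finset.mem_biUnion.2 ⟨x, hx, Finset.mem_image.2 ⟨j, Finset.mem_univ _, rfl⟩⟩

theorem mem_ran' {y : Q} {j : J} (hy : y * s j ∈ Φ) : y ∈ ran s Φ := by
  have := mem_ran s Φ hy j
  rwa [mul_inv_cancel_right] at this

/-- the truncated matrix -/
def bT : Matrix ({y // y ∈ ran s Φ} × κ) ({x // x ∈ Φ} × ι) ℤ :=
  fun y x => ∑ j, if y.1.1 * s j = x.1.1 then c y.2 x.2 j else 0

/-- the complex truncated matrix -/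
noncomputable abbrev bC : Matrix ({y // y ∈ ran s Φ} × κ) ({x // x ∈ Φ} × ι) ℂ := (bT c s Φ).map (Int.cast : ℤ → ℂ)

theorem mulVec_bT {K : Type} [Field K] (v : {x // x ∈ Φ} × ι → K) (φ : Q × ι → K)
    (h1 : ∀ x (hx : x ∈ Φ) i, φ (x, i) = v (⟨x, hx⟩, i)) (h2 : ∀ x, x ∉ Φ → ∀ i, φ (x, i) = 0)
    (y : {y // y ∈ ran s Φ}) (k : κ) :
    ((bT c s Φ).map (Int.cast : ℤ → K) *ᵥ v) (y, k) = ∑ i, ∑ j, (c k i j : K) * φ (y.1 * s j, i) := by
  simp only [mulVec, dotProduct, Matrix.map_apply, bT, Fintype.sum_prod_type]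
  rw [Finset.sum_comm]
  refine Finset.sum_congr rfl fun i _ => ?_
  simp only [Int.cast_sum, Finset.sum_mul]
  rw [Finset.sum_comm]
  refine Finset.sum_congr rfl fun j _ => ?_
  by_cases hy : y.1 * s j ∈ Φ
  · rw [Finset.sum_eq_single (⟨y.1 * s j, hy⟩ : {x // x ∈ Φ})]
    · rw [if_pos rfl, h1 _ hy]
    · intro b _ hb
      rw [if_neg (fun h => hb (Subtype.ext h.symm)), Int.cast_zero, zero_mul]
    · intro h
      exact absurd (Finset.mem_univ _) h
  · rw [h2 _ hy, mul_zero]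
    refine Finset.sum_eq_zero fun b _ => ?_
    rw [if_neg (fun h => hy (by rw [h]; exact b.2)), Int.cast_zero, zero_mul]

theorem bF_eT (v : {x // x ∈ Φ} × ι → ℂ) : bF c s (eT ι Φ v) = eT κ (ran s Φ) (bC c s Φ *ᵥ v) := by
  refine eq_eT _ _ _ (fun y hy k => ?_) (fun y hy k => ?_)
  · rw [bF_apply, mulVec_bT c s Φ v (fun x => eT ι Φ v x) (fun x hx i => eT_mem _ _ _ hx _)
      (fun x hx i => eT_notMem _ _ _ hx _)]
  · rw [bF_apply]
    refine Finset.sum_eq_zero fun i _ => Finset.sum_eq_zero fun j _ => ?_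
    rw [eT_notMem _ _ _ (fun h => hy (mem_ran' s Φ h)), mul_zero]

theorem btF_eT (u : {y // y ∈ ran s Φ} × κ → ℂ) (x : Q) (hx : x ∈ Φ) (i : ι) :
    btF c s (eT κ (ran s Φ) u) (x, i) = ((bC c s Φ)ᴴ *ᵥ u) (⟨x, hx⟩, i) := by
  rw [btF_apply]
  simp only [mulVec, dotProduct, conjTranspose_apply, Matrix.map_apply, bT, Fintype.sum_prod_type]
  conv_rhs => rw [Finset.sum_comm]
  refine Finset.sum_congr rfl fun k _ => ?_
  have h1 : ∀ y : {y // y ∈ ran s Φ}, star ((∑ j, if y.1 * s j = x then c k i j else 0 : ℤ) : ℂ) * u (y, k) =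
      ∑ j, (if y.1 * s j = x then (c k i j : ℂ) else 0) * u (y, k) := by
    intro y
    rw [← Finset.sum_mul]
    congr 1
    push_cast
    rw [star_sum]
    refine Finset.sum_congr rfl fun j _ => ?_
    split_ifs <;> simp
  conv_rhs => rw [Finset.sum_congr rfl fun y _ => h1 y, Finset.sum_comm]
  refine Finset.sum_congr rfl fun j _ => ?_
  rw [eT_mem _ _ _ (mem_ran s Φ hx j), Finset.sum_eq_single (⟨x * (s j)⁻¹, mem_ran s Φ hx j⟩ : {y // y ∈ ran s Φ})]
  · rw [if_pos (by simp)]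
  · intro y _ hy
    rw [if_neg, zero_mul]
    intro h
    apply hy
    apply Subtype.ext
    simp only
    rw [← h, mul_inv_cancel_right]
  · intro h
    exact absurd (Finset.mem_univ _) h

theorem tF_eT (a : ℂ) (v : {x // x ∈ Φ} × ι → ℂ) (h : ∀ x, x ∉ Φ → ∀ i, tF a c s (eT ι Φ v) (x, i) = 0) :
    tF a c s (eT ι Φ v) = eT ι Φ ((1 - a • ((bC c s Φ)ᴴ * bC c s Φ)) *ᵥ v) := by
  refine eq_eT _ _ _ (fun x hx i => ?_) h
  show (eT ι Φ v - a • btF c s (bF c s (eT ι Φ v))) (x, i) = _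
  rw [Finsupp.sub_apply, Finsupp.smul_apply, bF_eT, btF_eT c s Φ _ x hx, eT_mem _ _ _ hx, sub_mulVec, one_mulVec,
    smul_mulVec, ← mulVec_mulVec]
  rfl

theorem tF_pow_eT (a : ℂ) (N : ℕ) (q : Q) (hq : q ∈ Φ) (i : ι)
    (hS : ∀ m ≤ N, ∀ x ∈ ((tF a c s ^ m) (Finsupp.single ((1 : Q), i) 1)).support, q * x.1 ∈ Φ) :
    (tF a c s ^ N) (Finsupp.single (q, i) 1) =
      eT ι Φ (((1 - a • ((bC c s Φ)ᴴ * bC c s Φ)) ^ N) *ᵥ Pi.single ((⟨q, hq⟩ : {x // x ∈ Φ}), i) 1) := by
  have hout : ∀ m ≤ N, ∀ x, x ∉ Φ → ∀ i', (tF a c s ^ m) (Finsupp.single (q, i) 1) (x, i') = 0 := by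
    intro m hm x hx i'
    have h1 := map_tF_pow a c s s (fun g => q * g) (fun g j => by rw [mul_assoc]) (fun g j => by rw [mul_assoc]) m
      (Finsupp.single ((1 : Q), i) 1)
    rw [Finsupp.mapDomain_single] at h1
    have h2 : Prod.map (fun g => q * g) id ((1 : Q), i) = (q, i) := by simp
    rw [h2] at h1
    rw [← h1]
    by_contra h3
    have h4 := Finsupp.mapDomain_support (Finsupp.mem_support_iff.2 h3)
    rw [Finset.mem_image] at h4
    obtain ⟨y, hy, hxy⟩ := h4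
    have h5 : q * y.1 = x := congrArg Prod.fst hxy
    exact hx (by rw [← h5]; exact hS m hm y hy)
  have key : ∀ m ≤ N, (tF a c s ^ m) (Finsupp.single (q, i) 1) =
      eT ι Φ (((1 - a • ((bC c s Φ)ᴴ * bC c s Φ)) ^ m) *ᵥ Pi.single ((⟨q, hq⟩ : {x // x ∈ Φ}), i) 1) := by
    intro m
    induction m with
    | zero =>
      intro _
      rw [pow_zero, pow_zero, one_mulVec]
      refine eq_eT _ _ _ (fun x hx i' => ?_) (fun x hx i' => ?_)
      · rw [Module.End.one_apply, Finsupp.single_apply, Pi.single_apply]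
        have : ((q, i) = (x, i')) ↔ ((⟨x, hx⟩, i') : {x // x ∈ Φ} × ι) = (⟨q, hq⟩, i) := by
          rw [Prod.ext_iff, Prod.ext_iff, Subtype.ext_iff]
          constructor
          · rintro ⟨h1, h2⟩
            exact ⟨h1.symm, h2.symm⟩
          · rintro ⟨h1, h2⟩
            exact ⟨h1.symm, h2.symm⟩
        by_cases h : (q, i) = (x, i')
        · rw [if_pos h, if_pos (this.1 h)]
        · rw [if_neg h, if_neg (fun h' => h (this.2 h'))]
      · rw [Module.End.one_apply, Finsupp.single_apply, if_neg]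
        intro h
        have h5 : q = x := congrArg Prod.fst h
        exact hx (by rw [← h5]; exact hq)
    | succ m ih =>
      intro hm
      have ih' := ih (by omega)
      have h1 : (tF a c s ^ (m + 1)) (Finsupp.single (q, i) 1) =
          tF a c s ((tF a c s ^ m) (Finsupp.single (q, i) 1)) := by
        rw [pow_succ', Module.End.mul_apply]
      rw [h1, ih', tF_eT, mulVec_mulVec, ← pow_succ']
      intro x hx i'
      rw [← ih', ← h1]
      exact hout (m + 1) hm x hx i'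
  exact key N le_rfl

theorem row_sum_le' (x : {x // x ∈ Φ} × ι) :
    ∑ y, ‖((bC c s Φ)ᴴ * bC c s Φ) x y‖ ≤
      (∑ k, ∑ i, ∑ j, ‖(c k i j : ℂ)‖) * ∑ k, ∑ i, ∑ j, ‖(c k i j : ℂ)‖ := by
  classical
  have h1 : ∀ z : {y // y ∈ ran s Φ} × κ, ∑ y, ‖(bC c s Φ) z y‖ ≤ ∑ k, ∑ i, ∑ j, ‖(c k i j : ℂ)‖ := by
    intro z
    have h2 : ∑ y, ‖(bC c s Φ) z y‖ ≤ ∑ i, ∑ j, ‖(c z.2 i j : ℂ)‖ := by
      rw [Fintype.sum_prod_type, Finset.sum_comm]
      refine Finset.sum_le_sum fun i _ => ?_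
      have h3 : ∀ q : {x // x ∈ Φ}, ‖(bC c s Φ) z (q, i)‖ ≤
          ∑ j, if z.1.1 * s j = q.1 then ‖(c z.2 i j : ℂ)‖ else 0 := by
        intro q
        simp only [Matrix.map_apply, bT]
        push_cast
        refine (norm_sum_le _ _).trans (Finset.sum_le_sum fun j _ => ?_)
        split_ifs <;> simp
      refine (Finset.sum_le_sum fun q _ => h3 q).trans ?_
      rw [Finset.sum_comm]
      refine Finset.sum_le_sum fun j _ => ?_
      by_cases hj : z.1.1 * s j ∈ Φ
      · rw [Finset.sum_eq_single (⟨z.1.1 * s j, hj⟩ : {x // x ∈ Φ})]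
        · rw [if_pos rfl]
        · intro b _ hb
          rw [if_neg (fun h => hb (Subtype.ext h.symm))]
        · intro h
          exact absurd (Finset.mem_univ _) h
      · rw [Finset.sum_eq_zero]
        · exact norm_nonneg _
        · intro b _
          rw [if_neg (fun h => hj (by rw [h]; exact b.2))]
    refine h2.trans ?_
    exact Finset.single_le_sum (f := fun k => ∑ i, ∑ j, ‖(c k i j : ℂ)‖)
      (fun k _ => Finset.sum_nonneg fun i _ => Finset.sum_nonneg fun j _ => norm_nonneg _) (Finset.mem_univ z.2)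
  have h4 : ∑ z, ‖(bC c s Φ) z x‖ ≤ ∑ k, ∑ i, ∑ j, ‖(c k i j : ℂ)‖ := by
    rw [Fintype.sum_prod_type, Finset.sum_comm]
    refine Finset.sum_le_sum fun k _ => ?_
    have h3 : ∀ q : {y // y ∈ ran s Φ}, ‖(bC c s Φ) (q, k) x‖ ≤
        ∑ j, if q = (⟨x.1.1 * (s j)⁻¹, mem_ran s Φ x.1.2 j⟩ : {y // y ∈ ran s Φ}) then ‖(c k x.2 j : ℂ)‖ else 0 := by
      intro q
      simp only [Matrix.map_apply, bT]
      push_cast
      refine (norm_sum_le _ _).trans (Finset.sum_le_sum fun j _ => ?_)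
      by_cases h : q.1 * s j = x.1.1
      · rw [if_pos h, if_pos (by apply Subtype.ext; simp only; rw [← h, mul_inv_cancel_right])]
      · rw [if_neg h]
        split_ifs <;> simp
    refine (Finset.sum_le_sum fun q _ => h3 q).trans ?_
    rw [Finset.sum_comm]
    have h5 : ∑ j, ∑ q : {y // y ∈ ran s Φ},
        (if q = (⟨x.1.1 * (s j)⁻¹, mem_ran s Φ x.1.2 j⟩ : {y // y ∈ ran s Φ}) then ‖(c k x.2 j : ℂ)‖ else 0) =
        ∑ j, ‖(c k x.2 j : ℂ)‖ := by
      refine Finset.sum_congr rfl fun j _ => ?_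
      rw [Finset.sum_ite_eq']
      simp
    rw [h5]
    exact Finset.single_le_sum (f := fun i => ∑ j, ‖(c k i j : ℂ)‖)
      (fun i _ => Finset.sum_nonneg fun j _ => norm_nonneg _) (Finset.mem_univ x.2)
  calc ∑ y, ‖((bC c s Φ)ᴴ * bC c s Φ) x y‖
      ≤ ∑ y, ∑ z, ‖(bC c s Φ) z x‖ * ‖(bC c s Φ) z y‖ := by
        refine Finset.sum_le_sum fun y _ => ?_
        rw [Matrix.mul_apply]
        refine (norm_sum_le _ _).trans (le_of_eq ?_)
        refine Finset.sum_congr rfl fun z _ => ?_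
        rw [norm_mul, conjTranspose_apply, norm_star]
    _ = ∑ z, ‖(bC c s Φ) z x‖ * ∑ y, ‖(bC c s Φ) z y‖ := by
        rw [Finset.sum_comm]
        refine Finset.sum_congr rfl fun z _ => ?_
        rw [Finset.mul_sum]
    _ ≤ ∑ z, ‖(bC c s Φ) z x‖ * ∑ k, ∑ i, ∑ j, ‖(c k i j : ℂ)‖ :=
        Finset.sum_le_sum fun z _ => mul_le_mul_of_nonneg_left (h1 z) (norm_nonneg _)
    _ = (∑ z, ‖(bC c s Φ) z x‖) * ∑ k, ∑ i, ∑ j, ‖(c k i j : ℂ)‖ := by rw [Finset.sum_mul]
    _ ≤ _ := mul_le_mul_of_nonneg_right h4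
        (Finset.sum_nonneg fun k _ => Finset.sum_nonneg fun i _ => Finset.sum_nonneg fun j _ => norm_nonneg _)

/-- injectivity modulo two gives injectivity over `ℂ` -/
theorem finrank_ker_bC (h : ∀ φ : Q × ι →₀ ZMod 2, (∀ g k, ∑ i, ∑ j, (c k i j : ZMod 2) * φ (g * s j, i) = 0) → φ = 0) :
    Module.finrank ℂ (LinearMap.ker (bC c s Φ).mulVecLin) = 0 := by
  have h1 : LinearMap.ker ((bT c s Φ).map (Int.castRingHom (ZMod 2))).mulVecLin = ⊥ := by
    rw [LinearMap.ker_eq_bot']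
    intro v hv
    have hmv : ((bT c s Φ).map (Int.cast : ℤ → ZMod 2)) *ᵥ v = 0 := hv
    let φ : Q × ι →₀ ZMod 2 := Finsupp.mapDomain (Prod.map Subtype.val id) ((Finsupp.equivFunOnFinite).symm v)
    have p1 : ∀ x (hx : x ∈ Φ) i, φ (x, i) = v (⟨x, hx⟩, i) := fun x hx i =>
      Finsupp.mapDomain_apply (inj_val ι Φ) ((Finsupp.equivFunOnFinite).symm v) (⟨x, hx⟩, i)
    have p2 : ∀ x, x ∉ Φ → ∀ i, φ (x, i) = 0 := by
      intro x hx i
      refine Finsupp.mapDomain_of_notMem_range _ _ ?_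
      rintro ⟨y, hy⟩
      have h5 : y.1.1 = x := congrArg Prod.fst hy
      exact hx (by rw [← h5]; exact y.1.2)
    have h2 : φ = 0 := by
      refine h φ fun g k => ?_
      by_cases hg : g ∈ ran s Φ
      · have h3 := mulVec_bT c s Φ v φ p1 p2 ⟨g, hg⟩ k
        rw [hmv] at h3
        exact h3.symm
      · refine Finset.sum_eq_zero fun i _ => Finset.sum_eq_zero fun j _ => ?_
        rw [p2 _ (fun h' => hg (mem_ran' s Φ h')), mul_zero]
    funext x
    obtain ⟨⟨x, hx⟩, i⟩ := x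
    rw [← p1 x hx i, h2]
    rfl
  have h2 := LinearMap.finrank_range_add_finrank_ker ((bT c s Φ).map (Int.castRingHom (ZMod 2))).mulVecLin
  have h3 := LinearMap.finrank_range_add_finrank_ker (bC c s Φ).mulVecLin
  rw [h1, finrank_bot, Module.finrank_fintype_fun_eq_card] at h2
  rw [Module.finrank_fintype_fun_eq_card] at h3
  have h4 := ModTwo.rank_two (bT c s Φ)
  have h5 : ((bT c s Φ).map (Int.castRingHom (ZMod 2))).rank =
    Module.finrank (ZMod 2) (LinearMap.range ((bT c s Φ).map (Int.castRingHom (ZMod 2))).mulVecLin) := rfl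
  have h6 : ((bT c s Φ).map (Int.castRingHom ℂ)).rank =
    Module.finrank ℂ (LinearMap.range (bC c s Φ).mulVecLin) := rfl
  omega

end trunc

/-- approximation by amenable quotients, the injective case -/
theorem vdim_eq_zero {Γ : Type} [Group Γ] {κ ι J : Type} [Fintype κ] [Fintype ι] [Fintype J]
    (c : κ → ι → J → ℤ) (s : J → Γ) (W : Submodule ℂ (E Γ ι)) (hW : (W : Set (E Γ ι)) = SolL c s)
    (H : ∀ S : Finset Γ, 1 ∉ S → ∃ (Q : Type) (_ : Group Q) (π : Γ →* Q), (∀ g ∈ S, π g ≠ 1) ∧ Halving Q ∧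
      ∀ φ : Q × ι →₀ ZMod 2, (∀ g k, ∑ i, ∑ j, (c k i j : ZMod 2) * φ (g * π (s j), i) = 0) → φ = 0) :
    vdim W = 0 := by
  classical
  have key : ∀ ε : ℝ, 0 < ε → vdim W ≤ 2 * ε := by
    intro ε hε
    obtain ⟨C1, hC1⟩ : ∃ C1, C1 = ∑ k, ∑ i, ∑ j, ‖(c k i j : ℂ)‖ := ⟨_, rfl⟩
    have hC10 : 0 ≤ C1 := by
      rw [hC1]
      exact Finset.sum_nonneg fun k _ => Finset.sum_nonneg fun i _ => Finset.sum_nonneg fun j _ => norm_nonneg _
    obtain ⟨C, hC⟩ : ∃ C, C = 1 + C1 * C1 := ⟨_, rfl⟩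
    have hC0 : 1 ≤ C := by
      rw [hC]
      nlinarith [mul_nonneg hC10 hC10]
    -- the choice of `e`
    obtain ⟨e, he, he1, he2⟩ : ∃ e : ℝ, 0 < e ∧ e < 1 ∧ Fintype.card ι * (Real.log C / (- Real.log e)) ≤ ε / 2 := by
      have hL : 0 ≤ Real.log C := Real.log_nonneg hC0
      obtain ⟨L, hLdef⟩ : ∃ L : ℝ, L = Fintype.card ι * Real.log C / (ε / 2) + 1 := ⟨_, rfl⟩
      have hL1 : 0 < L := by
        rw [hLdef]
        positivity
      refine ⟨Real.exp (-L), Real.exp_pos _, by rw [Real.exp_lt_one_iff]; linarith, ?_⟩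
      rw [Real.log_exp, neg_neg, ← mul_div_assoc, div_le_iff₀ hL1, hLdef, mul_add, mul_div_cancel₀ _ (by positivity)]
      linarith
    obtain ⟨N, hN⟩ : ∃ N : ℕ, Fintype.card ι * (1 - e / C) ^ (2 * N) ≤ ε / 2 := by
      have h0 : 0 ≤ 1 - e / C := by
        have : e / C ≤ 1 := (div_le_one (by linarith)).2 (by linarith)
        linarith
      have h1 : 1 - e / C < 1 := by
        have : 0 < e / C := div_pos he (by linarith)
        linarith
      have h2 : Tendsto (fun N : ℕ => (Fintype.card ι : ℝ) * (1 - e / C) ^ (2 * N)) atTop (𝓝 (Fintype.card ι * 0)) := by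
        refine Tendsto.const_mul _ ?_
        exact (tendsto_pow_atTop_nhds_zero_of_lt_one h0 h1).comp (tendsto_id.const_mul_atTop' (by norm_num : 0 < 2))
      rw [mul_zero] at h2
      exact ((tendsto_order.1 h2).2 (ε / 2) (by positivity)).exists.imp fun N h => h.le
    obtain ⟨a, ha⟩ : ∃ a : ℂ, a = ((C⁻¹ : ℝ) : ℂ) := ⟨_, rfl⟩
    obtain ⟨w, hw⟩ : ∃ w : ι → (Γ × ι →₀ ℂ), w = fun i => (tF a c s ^ N) (Finsupp.single ((1 : Γ), i) 1) := ⟨_, rfl⟩
    obtain ⟨F, hF⟩ : ∃ F : Finset Γ, F = Finset.univ.biUnion fun i => (w i).support.image Prod.fst := ⟨_, rfl⟩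
    obtain ⟨Q, _, π, hπ, hQ, hinjQ⟩ := H (((F ×ˢ F).image fun x => x.1⁻¹ * x.2).erase 1) (by simp)
    have hinj : Set.InjOn π F := by
      intro g hg h hh hgh
      by_contra hne
      refine hπ (g⁻¹ * h) ?_ (by rw [map_mul, map_inv, hgh, inv_mul_cancel])
      rw [Finset.mem_erase]
      refine ⟨fun h1 => hne (inv_mul_eq_one.1 h1), ?_⟩
      rw [Finset.mem_image]
      exact ⟨(g, h), Finset.mem_product.2 ⟨hg, hh⟩, rfl⟩
    have h1 : vdim W ≤ ∑ i, sqs (w i) := by
      rw [hw]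
      exact vdim_le_sqs c s W hW a N
    obtain ⟨t, ht⟩ : ∃ t : J → Q, t = fun j => π (s j) := ⟨_, rfl⟩
    have h2 : ∀ i, sqs ((tF a c t ^ N) (Finsupp.single ((1 : Q), i) 1)) = sqs (w i) := by
      intro i
      have h3 := map_tF_pow a c s t π (fun g j => by rw [ht, map_mul]) (fun g j => by rw [ht, map_mul, map_inv]) N
        (Finsupp.single ((1 : Γ), i) 1)
      rw [Finsupp.mapDomain_single] at h3
      have h4 : Prod.map π id ((1 : Γ), i) = ((1 : Q), i) := by simp
      rw [h4] at h3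
      rw [← h3, hw]
      refine sqs_mapDomain _ _ ?_
      intro x hx y hy hxy
      have hx' : x.1 ∈ F := by
        rw [hF, Finset.mem_biUnion]
        exact ⟨i, Finset.mem_univ _, Finset.mem_image_of_mem _ (by rw [hw]; exact hx)⟩
      have hy' : y.1 ∈ F := by
        rw [hF, Finset.mem_biUnion]
        exact ⟨i, Finset.mem_univ _, Finset.mem_image_of_mem _ (by rw [hw]; exact hy)⟩
      have h5 := congrArg Prod.fst hxy
      have h6 := congrArg Prod.snd hxy
      simp only [Prod.map_fst, Prod.map_snd, id_eq] at h5 h6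
      exact Prod.ext (hinj hx' hy' h5) h6
    -- the Foelner set
    obtain ⟨S, hS⟩ : ∃ S : Finset Q, S = (Finset.range (N + 1)).biUnion fun m => Finset.univ.biUnion fun i =>
      ((tF a c t ^ m) (Finsupp.single ((1 : Q), i) 1)).support.image Prod.fst := ⟨_, rfl⟩
    obtain ⟨Φ, I, hI, hIΦ, hIS, hcard⟩ := hQ S
    have h3 : ∀ q (hq : q ∈ Φ), q ∈ I → ∀ i, sqs ((tF a c t ^ N) (Finsupp.single ((1 : Q), i) 1)) =
        ∑ x, ‖(((1 - a • ((bC c t Φ)ᴴ * bC c t Φ)) ^ N : Matrix _ _ ℂ)) x ((⟨q, hq⟩ : {x // x ∈ Φ}), i)‖ ^ 2 := by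
      intro q hq hqI i
      have b1 := tF_pow_eT c t Φ a N q hq i (fun m hm x hx => hIS q hqI x.1 (by
        rw [hS, Finset.mem_biUnion]
        refine ⟨m, Finset.mem_range.2 (by omega), ?_⟩
        rw [Finset.mem_biUnion]
        exact ⟨i, Finset.mem_univ _, Finset.mem_image_of_mem _ hx⟩))
      have b2 : sqs ((tF a c t ^ N) (Finsupp.single (q, i) 1)) =
          sqs ((tF a c t ^ N) (Finsupp.single ((1 : Q), i) 1)) := by
        have c1 := map_tF_pow a c t t (fun g => q * g) (fun g j => by rw [mul_assoc]) (fun g j => by rw [mul_assoc]) N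
          (Finsupp.single ((1 : Q), i) 1)
        rw [Finsupp.mapDomain_single] at c1
        have c2 : Prod.map (fun g => q * g) id ((1 : Q), i) = (q, i) := by simp
        rw [c2] at c1
        rw [← c1]
        refine sqs_mapDomain _ _ ?_
        intro x _ y _ hxy
        have h5 := congrArg Prod.fst hxy
        have h6 := congrArg Prod.snd hxy
        simp only [Prod.map_fst, Prod.map_snd, id_eq] at h5 h6
        exact Prod.ext (mul_left_cancel h5) h6
      rw [← b2, b1, sqs_eT]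
      refine Finset.sum_congr rfl fun x _ => ?_
      rw [mulVec_single_one]
      rfl
    have h6 := mat_bound (bT c t Φ) hC0 (fun x => (row_sum_le' c t Φ x).trans
      (by rw [← hC1, hC]; linarith)) he he1 N
    have hker := finrank_ker_bC c t Φ (by rw [ht]; exact hinjQ)
    rw [hker, Nat.cast_zero, zero_add, ← ha, Fintype.card_prod] at h6
    have hsub : ∑ q ∈ I, ∑ i, sqs (w i) ≤
        ∑ y, ∑ x, ‖((1 - a • ((bC c t Φ)ᴴ * bC c t Φ)) ^ N : Matrix _ _ ℂ) x y‖ ^ 2 := by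
      rw [Fintype.sum_prod_type]
      have b1 : ∑ q ∈ I, ∑ i, sqs (w i) = ∑ q : {x // x ∈ Φ}, if q.1 ∈ I then ∑ i, sqs (w i) else 0 := by
        rw [Finset.sum_coe_sort Φ (fun q => if q ∈ I then ∑ i, sqs (w i) else 0), ← Finset.sum_filter]
        refine Finset.sum_congr ?_ fun _ _ => rfl
        ext q
        simp only [Finset.mem_filter]
        exact ⟨fun h => ⟨hIΦ h, h⟩, fun h => h.2⟩
      rw [b1]
      refine Finset.sum_le_sum fun q _ => ?_
      split_ifs with hqI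
      · refine le_of_eq (Finset.sum_congr rfl fun i _ => ?_)
        rw [← h2 i, h3 q.1 q.2 hqI i]
      · exact Finset.sum_nonneg fun _ _ => Finset.sum_nonneg fun _ _ => by positivity
    rw [Finset.sum_const, nsmul_eq_mul] at hsub
    have hΦ : (Fintype.card {x // x ∈ Φ} : ℝ) = Φ.card := by simp
    have hI0 : (0 : ℝ) < I.card := by exact_mod_cast hI.card_pos
    have hcard' : (Φ.card : ℝ) ≤ 2 * I.card := by exact_mod_cast hcard
    push_cast at h6
    rw [hΦ] at h6
    have hΦ0 : (0 : ℝ) ≤ Φ.card := Nat.cast_nonneg _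
    have h8 := mul_le_mul_of_nonneg_left he2 hΦ0
    have h9 := mul_le_mul_of_nonneg_left hN hΦ0
    have h10 : (I.card : ℝ) * ∑ i, sqs (w i) ≤ Φ.card * ε := by
      refine hsub.trans (h6.trans ?_)
      nlinarith
    have h11 : (I.card : ℝ) * ∑ i, sqs (w i) ≤ I.card * (2 * ε) := by
      refine h10.trans ?_
      nlinarith
    exact h1.trans (le_of_mul_le_mul_left h11 hI0)
  refine le_antisymm (le_of_forall_pos_le_add fun ε hε => ?_) (vdim_nonneg W)
  have := key (ε / 2) (by positivity)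
  linarith

end SQ.Fo
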